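import Pool.Agent.Y742.HC.Stm
import Pool.Agent.Helper386.D5V.Helper399_FF4

/-!
# Project HC (helper742): constant-like extensions are unramified (helper500)

The linear independence over the residue field of a basis of elements algebraic over `L` in the
product of the residue fields of the places over `P`, by the trace form; then the fundamental
identity. `reg_int`, `ord_alg`, `chg` are copied from `Pool/Agent/Y971/SP/ChartP.lean`.
-/

set_option autoImplicit false

namespace Pool.Agent.Y500.HC

open FF Module

section alg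

variable {k K : Type*} [Field k] [Field K] [Algebra k K]

theorem reg_int (P : Place k K) {b : K} (hb : IsIntegral k b) : P.Reg b := by
  let ψ : k →+* P.O := (algebraMap k K).codRestrict P.O P.reg_const
  have hb' : IsIntegral P.O b := by
    obtain ⟨p, hp, he⟩ := hb
    refine ⟨p.map ψ, hp.map _, ?_⟩
    rw [Polynomial.eval₂_map]
    exact he
  obtain ⟨y, hy⟩ := (IsIntegrallyClosed.isIntegral_iff (R := P.O) (K := K)).1 hb'
  rw [← hy]
  exact y.2

theorem ord_alg (P : Place k K) {f : K} (hf0 : f ≠ 0) (hf : IsAlgebraic k f) :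
    P.ord f = 0 := by
  have h1 : P.Reg f := reg_int P hf.isIntegral
  have h2 : P.Reg f⁻¹ := reg_int P hf.inv.isIntegral
  have h3 := (P.reg_iff hf0).1 h1
  have h4 := (P.reg_iff (inv_ne_zero hf0)).1 h2
  rw [P.ord_inv] at h4
  omega

/-- zero, or positive order -/
def Z (P : Place k K) (f : K) : Prop := f = 0 ∨ 0 < P.ord f

theorem Z.reg {P : Place k K} {f : K} (h : Z P f) : P.Reg f := by
  rcases h with h | h
  · exact Or.inl h
  · exact Or.inr h.le

theorem z_iff {P : Place k K} {f : K} : Z P f ↔ P.Reg f ∧ P.red f = 0 := by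
  constructor
  · intro h
    exact ⟨h.reg, (P.red_eq_zero_iff h.reg).2 h⟩
  · rintro ⟨h1, h2⟩
    exact (P.red_eq_zero_iff h1).1 h2

theorem Z.zero (P : Place k K) : Z P 0 := Or.inl rfl

theorem Z.add {P : Place k K} {f g : K} (hf : Z P f) (hg : Z P g) : Z P (f + g) := by
  rw [z_iff] at *
  refine ⟨P.reg_add hf.1 hg.1, ?_⟩
  rw [P.red_add hf.1 hg.1, hf.2, hg.2, add_zero]

theorem Z.sum {P : Place k K} {ι : Type*} (s : Finset ι) (f : ι → K) (h : ∀ i ∈ s, Z P (f i)) :
    Z P (∑ i ∈ s, f i) := by
  classical
  induction s using Finset.induction_on with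
  | empty => exact Z.zero P
  | insert a s ha ih =>
    rw [Finset.sum_insert ha]
    exact (h a (Finset.mem_insert_self a s)).add (ih fun i hi => h i (Finset.mem_insert_of_mem hi))

theorem Z.mul {P : Place k K} {f g : K} (hf : P.Reg f) (hg : Z P g) : Z P (f * g) := by
  rw [z_iff] at *
  refine ⟨P.reg_mul hf hg.1, ?_⟩
  rw [P.red_mul hf hg.1, hg.2, mul_zero]

end alg

section tr

variable {k K M E : Type*} [Field k] [CharZero k] [Field K] [Field M] [Field E] [Algebra k K]
  [Algebra k M] [Algebra k E] [Algebra K M] [Algebra K E] [Algebra M E] [IsScalarTower k K M]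
  [IsScalarTower k K E] [IsScalarTower k M E] [IsScalarTower K M E]

omit [IsScalarTower k K M] in
/-- The trace of an element which is zero at all places over `P`, by means of a Galois extension. -/
theorem trace_pos_gal [FiniteDimensional K E] [IsGalois K E] (P : Place k K) {y : M}
    (hy : ∀ (w : Place k M) (e : ℕ), Over w P e → Z w y) : Z P (Algebra.trace K M y) := by
  have : CharZero K := charZero_of_injective_algebraMap (algebraMap k K).injective
  have hfM : FiniteDimensional K M :=
    FiniteDimensional.of_injective (IsScalarTower.toAlgHom K M E).toLinearMap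
      (algebraMap M E).injective
  have hfE : FiniteDimensional M E := FiniteDimensional.right K M E
  obtain ⟨S, T, -, hT, hsum⟩ := exists_places_over (K' := E) P
  have hne : S.Nonempty := by
    rw [Finset.nonempty_iff_ne_empty]
    rintro rfl
    rw [Finset.sum_empty] at hsum
    exact (finrank_pos (R := K) (M := E)).ne' hsum.symm
  obtain ⟨R, hRS⟩ := hne
  obtain ⟨e0, hR, -⟩ := hT R hRS
  obtain ⟨t, ht0, ht⟩ := P.surj
  -- all conjugates
  have hconj : ∀ σ : E ≃ₐ[K] E, Z R (σ (algebraMap M E y)) := by
    intro σ
    have hord : ∀ f : K, (R.comp (σ.restrictScalars k)).ord (algebraMap K E f) = e0 * P.ord f := by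
      intro f
      rw [R.comp_ord]
      have : (σ.restrictScalars k) (algebraMap K E f) = algebraMap K E f := σ.commutes f
      rw [this]
      exact hR.2 f
    have hex : ∃ f : M, (R.comp (σ.restrictScalars k)).ord (algebraMap M E f) ≠ 0 := by
      refine ⟨algebraMap K M t, ?_⟩
      rw [← IsScalarTower.algebraMap_apply K M E, hord, ht]
      have := hR.1
      omega
    obtain ⟨e1, w0, h1⟩ := exists_over (R.comp (σ.restrictScalars k)) hex
    have h1' : (0 : ℤ) < e1 := by exact_mod_cast h1.1
    have h0' : (0 : ℤ) < e0 := by exact_mod_cast hR.1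
    have h2 : ∀ f : K, e1 * w0.ord (algebraMap K M f) = e0 * P.ord f := by
      intro f
      rw [← h1.2, ← IsScalarTower.algebraMap_apply K M E]
      exact hord f
    have h3 : 0 < w0.ord (algebraMap K M t) := by
      have h4 := h2 t
      rw [ht, mul_one] at h4
      by_contra hcon
      push Not at hcon
      have : (e1 : ℤ) * w0.ord (algebraMap K M t) ≤ 0 :=
        mul_nonpos_of_nonneg_of_nonpos h1'.le hcon
      omega
    have h4 : Over w0 P (w0.ord (algebraMap K M t)).toNat := by
      refine ⟨by omega, fun f => ?_⟩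
      rw [Int.toNat_of_nonneg h3.le]
      have h5 := h2 f
      have h6 := h2 t
      rw [ht, mul_one] at h6
      have h7 : (e1 : ℤ) * w0.ord (algebraMap K M f) =
          e1 * (w0.ord (algebraMap K M t) * P.ord f) := by
        rw [h5, ← h6]
        ring
      exact mul_left_cancel₀ h1'.ne' h7
    rcases hy w0 _ h4 with h5 | h5
    · left
      rw [h5, map_zero, map_zero]
    · right
      have h6 := h1.2 y
      rw [R.comp_ord] at h6
      have h7 : R.ord (σ (algebraMap M E y)) = e1 * w0.ord y := h6
      rw [h7]
      positivity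
  have h1 : Z R (algebraMap K E (Algebra.trace K E (algebraMap M E y))) := by
    rw [trace_eq_sum_automorphisms]
    exact Z.sum _ _ fun σ _ => hconj σ
  rw [← Algebra.trace_trace (R := K) (S := M) (T := E), Algebra.trace_algebraMap, map_nsmul,
    nsmul_eq_mul, map_mul, map_natCast] at h1
  set n := finrank M E with hn
  have hn0 : (n : k) ≠ 0 := by
    have : 0 < n := finrank_pos
    exact_mod_cast this.ne'
  have hnE : (n : E) = algebraMap k E (n : k) := (map_natCast _ n).symm
  by_cases hz : Algebra.trace K M y = 0
  · exact Or.inl hz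
  · right
    have hz' : algebraMap K E (Algebra.trace K M y) ≠ 0 := (map_ne_zero _).2 hz
    have hnE0 : (n : E) ≠ 0 := by
      rw [hnE]
      exact (map_ne_zero _).2 hn0
    rcases h1 with h2 | h2
    · exact absurd h2 (mul_ne_zero hnE0 hz')
    · rw [R.ord_mul hnE0 hz', hnE, R.ord_const hn0, zero_add, hR.2] at h2
      by_contra hcon
      push Not at hcon
      have h0' : (0 : ℤ) < e0 := by exact_mod_cast hR.1
      have : (e0 : ℤ) * P.ord (Algebra.trace K M y) ≤ 0 :=
        mul_nonpos_of_nonneg_of_nonpos h0'.le hcon
      omega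

end tr

section main

variable {k K M : Type*} [Field k] [CharZero k] [Field K] [Field M] [Algebra k K]
  [Algebra k M] [Algebra K M] [IsScalarTower k K M]

theorem trace_pos [FiniteDimensional K M] (P : Place k K) {y : M}
    (hy : ∀ (w : Place k M) (e : ℕ), Over w P e → Z w y) : Z P (Algebra.trace K M y) := by
  have : CharZero K := charZero_of_injective_algebraMap (algebraMap k K).injective
  let A := AlgebraicClosure M
  have : Normal K A := by
    have : IsAlgClosure K A := by
      refine ⟨inferInstance, ?_⟩
      exact Algebra.IsAlgebraic.trans K M A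
    exact IsAlgClosure.normal K A
  let E := IntermediateField.normalClosure K M A
  have : IsScalarTower k M E := by
    refine IsScalarTower.of_algebraMap_eq fun c => ?_
    rw [IsScalarTower.algebraMap_apply k K E, IsScalarTower.algebraMap_apply K M E,
      IsScalarTower.algebraMap_apply k K M]
  have : IsGalois K E := ⟨⟩
  exact trace_pos_gal (E := E) P hy

/-- A basis of elements which are algebraic over the constants. -/
theorem exists_basis [FiniteDimensional K M]
    (htop : IntermediateField.adjoin K {z : M | IsAlgebraic k z} = ⊤) :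
    ∃ (n : ℕ) (b : Basis (Fin n) K M), ∀ i, IsIntegral k (b i) := by
  classical
  have h1 : Submodule.span K {z : M | IsAlgebraic k z} = ⊤ := by
    have h2 : (IntermediateField.adjoin K {z : M | IsAlgebraic k z}).toSubalgebra =
        Algebra.adjoin K {z : M | IsAlgebraic k z} :=
      IntermediateField.adjoin_toSubalgebra_of_isAlgebraic fun x _ =>
        Algebra.IsAlgebraic.isAlgebraic x
    rw [htop, IntermediateField.top_toSubalgebra] at h2
    have h3 := Algebra.adjoin_eq_span K {z : M | IsAlgebraic k z}
    rw [← h2] at h3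
    have h4 : ((Submonoid.closure {z : M | IsAlgebraic k z} : Submonoid M) : Set M) =
        {z : M | IsAlgebraic k z} := by
      apply subset_antisymm
      · intro z hz
        refine Submonoid.closure_induction (motive := fun z _ => IsAlgebraic k z) (fun x hx => hx)
          isAlgebraic_one (fun x y _ _ hx hy => hx.mul hy) hz
      · exact Submonoid.subset_closure
    rw [h4] at h3
    rw [← h3]
    rfl
  let b := Basis.ofSpan (K := K) h1.ge
  have hb : ∀ i, b i ∈ {z : M | IsAlgebraic k z} := fun i => Basis.ofSpan_subset h1.ge ⟨i, rfl⟩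
  let : Fintype ((linearIndepOn_empty K id).extend (Set.empty_subset {z : M | IsAlgebraic k z})) :=
    FiniteDimensional.fintypeBasisIndex b
  refine ⟨_, b.reindex (Fintype.equivFin _), fun i => ?_⟩
  rw [Basis.reindex_apply]
  exact IsAlgebraic.isIntegral (hb _)

/-- Elements of the basis are independent modulo `P`. -/
theorem indep [FiniteDimensional K M] (P : Place k K) {ι : Type*} [Fintype ι] [DecidableEq ι]
    (b : Basis ι K M) (hb : ∀ i, IsIntegral k (b i)) (a : ι → K) (ha : ∀ i, P.Reg (a i))
    (h : ∀ (w : Place k M) (e : ℕ), Over w P e → Z w (∑ i, a i • b i)) (i : ι) :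
    P.red (a i) = 0 := by
  have : CharZero K := charZero_of_injective_algebraMap (algebraMap k K).injective
  obtain ⟨z, hz⟩ : ∃ z : M, z = ∑ i, a i • b i := ⟨_, rfl⟩
  rw [← hz] at h
  have hza : b.equivFun z = a := by
    rw [hz, ← Basis.equivFun_symm_apply, LinearEquiv.apply_symm_apply]
  have hG := Algebra.traceMatrix_of_basis_mulVec (A := K) b z
  rw [hza] at hG
  -- the entries of the trace matrix
  have hGr : ∀ i j, IsIntegral k (Algebra.traceMatrix K b i j) := fun i j => by
    rw [Algebra.traceMatrix_apply, Algebra.traceForm_apply]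
    exact Algebra.isIntegral_trace ((hb i).mul (hb j))
  have hdet : (Algebra.traceMatrix K b).det ≠ 0 := Algebra.discr_not_zero_of_basis K b
  have hdi : IsIntegral k (Algebra.traceMatrix K b).det := IsIntegral.det hGr
  have hd0 : P.ord (Algebra.traceMatrix K b).det = 0 := ord_alg P hdet hdi.isAlgebraic
  let G : Matrix ι ι P.O := fun i j => ⟨Algebra.traceMatrix K b i j, reg_int P (hGr i j)⟩
  let aO : ι → P.O := fun i => ⟨a i, ha i⟩
  have hGmap : G.map P.O.subtype = Algebra.traceMatrix K b := rfl
  have hGdet : P.O.subtype G.det = (Algebra.traceMatrix K b).det := by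
    rw [RingHom.map_det]
    rfl
  have hdetne : (P.resHom G.det) ≠ 0 := by
    have h1 : P.red (Algebra.traceMatrix K b).det ≠ 0 := P.red_ne_zero hdet hd0
    rw [P.red_of_reg (Or.inr hd0.ge)] at h1
    intro h2
    apply h1
    rw [← h2]
    congr 1
    exact Subtype.ext hGdet.symm
  have hmul : (G.map P.resHom).mulVec (fun i => P.resHom (aO i)) = 0 := by
    funext j
    have h1 : Z P (Algebra.trace K M (z * b j)) := by
      apply trace_pos P
      intro w e hw
      rw [mul_comm]
      exact Z.mul (reg_int w (hb j)) (h w e hw)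
    have h2 := congrFun hG j
    have h3 : P.O.subtype (G.mulVec aO j) = Algebra.trace K M (z * b j) := by
      rw [← h2]
      simp only [Matrix.mulVec, dotProduct, map_sum, map_mul]
      rfl
    have h4 : P.resHom (G.mulVec aO j) = 0 := by
      have h5 := (z_iff.1 h1).2
      rw [P.red_of_reg h1.reg] at h5
      rw [← h5]
      congr 1
      exact Subtype.ext h3
    rw [Pi.zero_apply, ← h4]
    simp only [Matrix.mulVec, dotProduct, map_sum, map_mul, Matrix.map_apply]
  have hz2 := Matrix.eq_zero_of_mulVec_eq_zero (M := G.map P.resHom) (by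
    have : (G.map P.resHom).det = P.resHom G.det := (RingHom.map_det _ _).symm
    rw [this]
    exact hdetne) hmul
  have h5 := congrFun hz2 i
  rw [P.red_of_reg (ha i)]
  exact h5

theorem main [FiniteDimensional K M]
    (htop : IntermediateField.adjoin K {z : M | IsAlgebraic k z} = ⊤)
    (P : Place k K) (Q : Place k M) (e : ℕ) (h : Over Q P e) : e = 1 := by
  classical
  have : CharZero K := charZero_of_injective_algebraMap (algebraMap k K).injective
  obtain ⟨n, b, hb⟩ := exists_basis (k := k) (K := K) (M := M) htop
  obtain ⟨S, T, hS, hT, hsum⟩ := exists_places_over (K' := M) P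
  choose ew hw hTw hTp using fun w : S => hT w.1 w.2
  let inst : ∀ w : S, Module P.RF w.1.RF := fun w => (hw w).resMap.toRingHom.toAlgebra.toModule
  obtain ⟨f, hf⟩ : ∃ f : S → ℕ, f = fun w => finrank P.RF w.1.RF := ⟨_, rfl⟩
  have hTf : ∀ w : S, T w.1 = ew w * f w := fun w => by
    rw [hf]
    exact hTw w
  have hfpos : ∀ w : S, 0 < f w := fun w => by
    have h1 := hTp w
    rw [hTf w] at h1
    refine Nat.pos_of_ne_zero fun h0 => ?_
    rw [h0, mul_zero] at h1
    exact lt_irrefl _ h1
  have hfd : ∀ w : S, Module.Finite P.RF w.1.RF := fun w => by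
    have h1 := hfpos w
    rw [hf] at h1
    exact Module.finite_of_finrank_pos h1
  have hle1 : ∀ w : S, f w ≤ T w.1 := fun w => by
    rw [hTf w]
    exact Nat.le_mul_of_pos_left _ (hw w).1
  -- the map
  let Φ : (Fin n → P.RF) →ₗ[P.RF] ((w : S) → w.1.RF) :=
    LinearMap.pi fun w => ∑ i, (LinearMap.proj i).smulRight (w.1.red (b i))
  have hΦ : ∀ x w, Φ x w = ∑ i, x i • w.1.red (b i) := by
    intro x w
    simp only [Φ, LinearMap.pi_apply, LinearMap.sum_apply, LinearMap.smulRight_apply,
      LinearMap.proj_apply]
  have hsm : ∀ (w : S) (c : P.RF) (r : w.1.RF), c • r = (hw w).resMap c * r := fun w c r => rfl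
  have hinj : Function.Injective Φ := by
    rw [injective_iff_map_eq_zero]
    intro x hx
    choose a ha hax using fun i => P.red_surjective (x i)
    have hkey : ∀ i, P.red (a i) = 0 := by
      refine indep P b hb a ha ?_
      intro w e' hwe
      have hwS := hS w e' hwe
      have h1 := congrFun hx ⟨w, hwS⟩
      rw [hΦ, Pi.zero_apply] at h1
      have hreg : ∀ i, w.Reg (algebraMap K M (a i)) := fun i => hwe.reg.2 (ha i)
      have hregb : ∀ i, w.Reg (b i) := fun i => reg_int w (hb i)
      have h2 : ∀ s : Finset (Fin n), w.Reg (∑ i ∈ s, a i • b i) ∧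
          w.red (∑ i ∈ s, a i • b i) = ∑ i ∈ s, w.red (algebraMap K M (a i)) * w.red (b i) := by
        intro s
        induction s using Finset.induction_on with
        | empty => exact ⟨by rw [Finset.sum_empty]; exact w.reg_zero, by
            rw [Finset.sum_empty, Finset.sum_empty, w.red_zero]⟩
        | insert c s hc ih =>
          rw [Finset.sum_insert hc, Finset.sum_insert hc]
          have h3 : w.Reg (a c • b c) := by
            rw [Algebra.smul_def]
            exact w.reg_mul (hreg c) (hregb c)
          refine ⟨w.reg_add h3 ih.1, ?_⟩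
          rw [w.red_add h3 ih.1, ih.2, Algebra.smul_def, w.red_mul (hreg c) (hregb c)]
      rw [z_iff]
      refine ⟨(h2 Finset.univ).1, ?_⟩
      rw [(h2 Finset.univ).2, ← h1]
      refine Finset.sum_congr rfl fun i _ => ?_
      rw [hsm, ← hax i, (hw ⟨w, hwS⟩).resMap_red (ha i)]
    funext i
    rw [← hax i, hkey i, Pi.zero_apply]
  have hfin := LinearMap.finrank_le_finrank_of_injective hinj
  have hfin2 : finrank P.RF ((w : S) → w.1.RF) = ∑ w : S, f w := by
    rw [hf]
    exact Module.finrank_pi_fintype _
  rw [hfin2, Module.finrank_fintype_fun_eq_card] at hfin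
  have hfin' : finrank K M ≤ ∑ w : S, f w := by
    rw [Module.finrank_eq_card_basis b]
    exact hfin
  have hsum' : ∑ w : S, T w.1 = finrank K M := by
    rw [← hsum]
    exact Finset.sum_coe_sort S T
  have heq : ∑ w : S, f w = ∑ w : S, T w.1 :=
    le_antisymm (Finset.sum_le_sum fun w _ => hle1 w) (by rw [hsum']; exact hfin')
  have heq' := (Finset.sum_eq_sum_iff_of_le fun w _ => hle1 w).1 heq
  have hQ := hS Q e h
  have h1 := heq' ⟨Q, hQ⟩ (Finset.mem_univ _)
  rw [hTf] at h1
  have h2 : ew ⟨Q, hQ⟩ = 1 := by
    have h3 := hfpos ⟨Q, hQ⟩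
    exact Nat.eq_of_mul_eq_mul_right h3 (by rw [one_mul]; exact h1.symm)
  rw [← h2]
  exact h.unique (hw ⟨Q, hQ⟩)

end main

/-- A place is a place over a larger field of constants on which it is trivial. -/
def chg {k K : Type*} [Field k] [Field K] [Algebra k K] (P : Place k K) (L : Type*) [Field L]
    [Algebra L K] (h : ∀ a : L, a ≠ 0 → P.ord (algebraMap L K a) = 0) : Place L K where
  ord := P.ord
  ord_zero := P.ord_zero
  ord_mul := P.ord_mul
  ord_add := P.ord_add
  ord_const := fun {c} hc => h c hc
  surj := P.surj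

/-- **UNR.** -/
theorem sUnr : Pool.Agent.Y742.HC.SUnr := by
  intro k K M _ _ _ _ _ _ _ _ _ L htop P Q e hP h
  have : CharZero L := charZero_of_injective_algebraMap (algebraMap k L).injective
  have h1 : ∀ a : L, a ≠ 0 → P.ord (algebraMap L K a) = 0 := fun a ha =>
    hP a.1 a.2 fun h0 => ha (Subtype.ext h0)
  have h2 : ∀ a : L, a ≠ 0 → Q.ord (algebraMap L M a) = 0 := fun a ha => by
    rw [IsScalarTower.algebraMap_apply L K M, h.2, h1 a ha, mul_zero]
  have h3 : Over (chg Q L h2) (chg P L h1) e := h
  exact main htop (chg P L h1) (chg Q L h2) e h3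

end Pool.Agent.Y500.HC
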